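import Pool.Agent.Helper16.Curl.Basic

set_option autoImplicit false

namespace Pool.Agent.Helper16.Curl

/-- Auxiliary construction of the sequence `A c`. -/
noncomputable def Apre (c : ℕ) : ℕ → (ℕ → ℤ)
  | 0 => fun _ => (c : ℤ)
  | n + 1 => Function.update (Apre c n) n (max (c : ℤ) (K (Apre c n) n : ℤ))

/-- The sequence `A c`, defined by `A c t = max c (K (A c) t)`. -/
noncomputable def A (c : ℕ) (n : ℕ) : ℤ := Apre c (n + 1) n

theorem Apre_eq (c : ℕ) : ∀ m i, i < m → Apre c m i = A c i := by
  intro m
  induction m with
  | zero => intro i hi; omega
  | succ m ih =>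
    intro i hi
    rcases Nat.lt_or_ge i m with h | h
    · have h1 : Apre c (m + 1) i = Apre c m i := by
        simp only [Apre]
        exact Function.update_of_ne (by omega) _ _
      rw [h1]
      exact ih i h
    · have : i = m := by omega
      subst this
      rfl

theorem A_rule (c t : ℕ) : A c t = max (c : ℤ) (K (A c) t : ℤ) := by
  have h1 : A c t = max (c : ℤ) (K (Apre c t) t : ℤ) := by
    unfold A
    simp only [Apre]
    exact Function.update_self _ _ _
  rw [h1, K_congr (fun i hi => Apre_eq c t i hi)]

/-- The restart lemma. -/
theorem restart {c : ℕ} {a : ℕ → ℤ} (hc : 3 ≤ c) (ha : ∀ t, a t = max (c : ℤ) (K a t : ℤ))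
    {ℓ x : ℕ} (hx : 1 ≤ x) (hx1 : a (x - 1) = c) (hx2 : ∀ t < ℓ, (c : ℤ) + 1 ≤ a (x + t))
    (hmin : ∀ y, 1 ≤ y → a (y - 1) = c → (∀ t < ℓ, (c : ℤ) + 1 ≤ a (y + t)) → x ≤ y)
    (hmax : ∀ y, 1 ≤ y → a (y - 1) = c → ¬ ∀ t < ℓ + 1, (c : ℤ) + 1 ≤ a (y + t)) : False := by
  have ha_ge : ∀ t, (c : ℤ) ≤ a t := fun t => by rw [ha t]; exact le_max_left _ _
  have haK : ∀ t, (K a t : ℤ) ≤ a t := fun t => by
    have := le_max_right (c : ℤ) (K a t : ℤ)
    rw [← ha t] at this
    exact this
  have haK' : ∀ t, (c : ℤ) + 1 ≤ a t → c + 1 ≤ K a t := by
    intro t ht
    rw [ha t] at ht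
    rcases le_max_iff.mp ht with h | h
    · omega
    · exact_mod_cast h
  have ha0 : a 0 = c := by
    rw [ha 0]
    have : K a 0 = 0 := by simp [K]
    rw [this]
    simp
  obtain ⟨e, he⟩ : ∃ e, e = x + ℓ := ⟨_, rfl⟩
  have he0 : 0 < e := by omega
  have hae : a e = c := by
    have h1 := hmax x hx hx1
    push Not at h1
    obtain ⟨t, ht1, ht2⟩ := h1
    have : t = ℓ := by
      by_contra hne
      have := hx2 t (by omega)
      omega
    subst this
    have := ha_ge (x + t)
    rw [he]
    omega
  -- the main claim
  have claim : ∀ T, T < (c + 1) * e → a T = a (T % e) := by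
    intro T
    induction T using Nat.strong_induction_on with
    | _ T ih =>
      intro hT
      rcases Nat.lt_or_ge T e with hTe | hTe
      · rw [Nat.mod_eq_of_lt hTe]
      have per : ∀ j, j < T → a j = a (j % e) := fun j hj => ih j hj (by omega)
      obtain ⟨i, hi⟩ : ∃ i, i = T % e := ⟨_, rfl⟩
      have hie : i < e := by rw [hi]; exact Nat.mod_lt T he0
      obtain ⟨b, hb⟩ : ∃ b, b = T / e := ⟨_, rfl⟩
      have hTb : T = b * e + i := by
        rw [hb, hi, Nat.mul_comm]; exact (Nat.div_add_mod T e).symm
      have hb1 : 1 ≤ b := by
        rw [hb, Nat.le_div_iff_mul_le he0]; omega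
      obtain ⟨β, hβ⟩ : ∃ β, β = b * e := ⟨_, rfl⟩
      rw [← hβ] at hTb
      have hβe : e ≤ β := by
        rw [hβ]
        calc e = 1 * e := (Nat.one_mul e).symm
          _ ≤ b * e := Nat.mul_le_mul_right e hb1
      -- copies
      have copy : ∀ j, j < e → β + j < T → a (β + j) = a j := by
        intro j hj hj2
        rw [per _ hj2, hβ]
        have : (b * e + j) % e = j := by
          rw [Nat.add_comm, Nat.add_mul_mod_self_right, Nat.mod_eq_of_lt hj]
        rw [this]
      have copy2 : ∀ j, j < e → a (β - e + j) = a j := by
        intro j hj
        rw [per _ (by omega), hβ]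
        obtain ⟨b', rfl⟩ : ∃ b', b = b' + 1 := ⟨b - 1, by omega⟩
        have h1 : (b' + 1) * e - e + j = j + b' * e := by
          have : (b' + 1) * e = b' * e + e := by ring
          omega
        rw [h1, Nat.add_mul_mod_self_right, Nat.mod_eq_of_lt hj]
      rw [← hi]
      have hge : a i ≤ a T := by
        rcases Nat.eq_zero_or_pos i with h0 | h0
        · rw [h0, ha0]; exact ha_ge T
        · obtain ⟨p, hp⟩ := exists_rep_K (w := a) h0
          have h1 : Rep a (β + i) p (K a i) := by
            refine Rep.shift (a := 0) (b := β) (n := i) (by rwa [Nat.zero_add]) hp.2.1 ?_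
            intro j hj
            rw [Nat.zero_add, copy j (by omega) (by omega)]
          have h2 := h1.le_K
          rw [← hTb] at h2
          have h3 := ha i
          rw [h3]
          apply max_le (ha_ge T)
          calc (K a i : ℤ) ≤ (K a T : ℤ) := by exact_mod_cast h2
            _ ≤ a T := haK T
      by_contra hne
      have hgt : a i < a T := lt_of_le_of_ne hge (fun h => hne h.symm)
      obtain ⟨m, hm⟩ : ∃ m, m = K a T := ⟨_, rfl⟩
      have hTm : a T = m := by
        rw [ha T, hm]
        apply max_eq_right
        by_contra hlt
        have h1 : max (c : ℤ) (K a T : ℤ) = c := max_eq_left (by omega)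
        have h2 := ha_ge i
        rw [ha T, h1] at hgt
        omega
      have hmc : c + 1 ≤ m := by
        have := ha_ge i
        omega
      have hmi : K a i < m := by
        have := haK i
        omega
      obtain ⟨p, hp⟩ := exists_rep_K (w := a) (n := T) (by omega)
      rw [← hm] at hp
      obtain ⟨hp0, hpT, hpp⟩ := hp
      have hmpi : i < m * p := by
        by_contra hle
        have h1 : Rep a (0 + i) p m := by
          refine Rep.shift (a := β) (b := 0) (n := i) (w := a) ?_ (by omega) ?_
          · rw [← hTb]; exact ⟨hp0, hpT, hpp⟩
          · intro j hj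
            rw [Nat.zero_add, copy j (by omega) (by omega)]
        rw [Nat.zero_add] at h1
        have := h1.le_K
        omega
      have hm4 : 4 ≤ m := by omega
      -- block ends
      have blockend : ∀ z, ℓ + 1 ≤ z → z ≤ T → a (z - ℓ - 1) = c →
          (∀ t < ℓ, (c : ℤ) + 1 ≤ a (z - ℓ + t)) → e ∣ z := by
        intro z hz1 hz2 hz3 hz4
        obtain ⟨r, hr⟩ : ∃ r, r = (z - 1) % e := ⟨_, rfl⟩
        have hre : r < e := by rw [hr]; exact Nat.mod_lt _ he0
        obtain ⟨d, hd⟩ : ∃ d, d = (z - 1) / e * e := ⟨_, rfl⟩
        have hzd : z - 1 = d + r := by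
          rw [hd, hr, Nat.mul_comm]; exact (Nat.div_add_mod (z - 1) e).symm
        have hdmod : ∀ j, j < e → (d + j) % e = j := by
          intro j hj
          rw [hd, Nat.add_comm, Nat.add_mul_mod_self_right, Nat.mod_eq_of_lt hj]
        rcases Nat.lt_or_ge r ℓ with hrl | hrl
        · exfalso
          -- wrap around: position d is in the block
          have h1 : a d = c := by
            have := per d (by omega)
            have h2 := hdmod 0 he0
            rw [Nat.add_zero] at h2
            rw [this, h2, ha0]
          have h3 := hz4 (ℓ - 1 - r) (by omega)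
          have h4 : z - ℓ + (ℓ - 1 - r) = d := by omega
          rw [h4] at h3
          omega
        · have h1 : a (r - ℓ) = c := by
            rw [← hdmod (r - ℓ) (by omega), ← per _ (by omega), ← hz3]
            congr 1
            omega
          have h2 : ∀ t < ℓ, (c : ℤ) + 1 ≤ a (r - ℓ + 1 + t) := by
            intro t ht
            have h3 := hz4 t ht
            rw [← hdmod (r - ℓ + 1 + t) (by omega), ← per _ (by omega)]
            have h4 : d + (r - ℓ + 1 + t) = z - ℓ + t := by omega
            rw [h4]
            exact h3
          have h3 := hmin (r - ℓ + 1) (by omega) (by simpa using h1) h2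
          have h4 : z = d + e := by omega
          rw [h4, hd]
          exact Dvd.dvd.add (Dvd.intro_left _ rfl) (dvd_refl e)
      have hblk1 : a (β - ℓ - 1) = c := by
        have h1 := copy2 (x - 1) (by omega)
        rw [hx1] at h1
        rw [← h1]
        congr 1
        omega
      have hblk2 : ∀ t < ℓ, (c : ℤ) + 1 ≤ a (β - ℓ + t) := by
        intro t ht
        have h1 := copy2 (x + t) (by omega)
        have h2 := hx2 t ht
        rw [← h1] at h2
        have h3 : β - e + (x + t) = β - ℓ + t := by omega
        rwa [h3] at h2
      rcases Nat.lt_or_ge (T - m * p) (β - ℓ) with hA | hB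
      · -- case A
        have hpl : ℓ + 1 ≤ p := by
          by_contra hlt
          have h1 := hpp (β - ℓ - 1) (by omega) (by omega)
          have h2 := hblk2 (p - 1) (by omega)
          have h3 : β - ℓ + (p - 1) = β - ℓ - 1 + p := by omega
          rw [h3, ← h1, hblk1] at h2
          omega
        have hdvd : e ∣ p := by
          have hβd : e ∣ β := by rw [hβ]; exact Dvd.intro_left _ rfl
          rcases Nat.lt_or_ge T (β + p) with hR | hR
          · rcases Nat.lt_or_ge (β - ℓ - 1) (T - m * p + p) with hL | hL
            · exfalso
              obtain ⟨m', rfl⟩ : ∃ m', m = m' + 3 := ⟨m - 3, by omega⟩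
              have e1 : (m' + 3) * p = m' * p + 3 * p := by ring
              have e2 : p ≤ m' * p := by
                calc p = 1 * p := (Nat.one_mul p).symm
                  _ ≤ m' * p := Nat.mul_le_mul_right p (by omega)
              omega
            · -- shift left
              have h1 : e ∣ β - p := by
                refine blockend (β - p) (by omega) (by omega) ?_ ?_
                · have h2 := hpp (β - p - ℓ - 1) (by omega) (by omega)
                  have h3 : β - p - ℓ - 1 + p = β - ℓ - 1 := by omega
                  rw [h3, hblk1] at h2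
                  exact h2
                · intro t ht
                  have h2 := hpp (β - p - ℓ + t) (by omega) (by omega)
                  have h3 : β - p - ℓ + t + p = β - ℓ + t := by omega
                  rw [h3] at h2
                  rw [h2]
                  exact hblk2 t ht
              have h2 : p = β - (β - p) := by omega
              rw [h2]
              exact Nat.dvd_sub hβd h1
          · -- shift right
            have h1 : e ∣ β + p := by
              refine blockend (β + p) (by omega) (by omega) ?_ ?_
              · have h2 := hpp (β - ℓ - 1) (by omega) (by omega)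
                have h3 : β - ℓ - 1 + p = β + p - ℓ - 1 := by omega
                rw [h3, hblk1] at h2
                exact h2.symm
              · intro t ht
                have h2 := hpp (β - ℓ + t) (by omega) (by omega)
                have h3 : β - ℓ + t + p = β + p - ℓ + t := by omega
                rw [h3] at h2
                rw [← h2]
                exact hblk2 t ht
            exact (Nat.dvd_add_right hβd).mp h1
        have hep : e ≤ p := Nat.le_of_dvd hp0 hdvd
        have h1 : (c + 1) * e ≤ m * p := Nat.mul_le_mul hmc hep
        omega
      · -- case B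
        obtain ⟨γ, hγ⟩ : ∃ γ, γ = m * p - i := ⟨_, rfl⟩
        have hγ1 : 1 ≤ γ := by omega
        have hγl : γ ≤ ℓ := by omega
        have hTγ : T - m * p = β - γ := by omega
        rcases Nat.eq_zero_or_pos i with hi0 | hi0
        · -- the power lies inside the block
          have h1 : Rep a (0 + e) p m := by
            refine Rep.shift (a := β - e) (b := 0) (n := e) (w := a) ?_ (by omega) ?_
            · have : β - e + e = T := by omega
              rw [this]
              exact ⟨hp0, hpT, hpp⟩
            · intro j hj
              rw [copy2 j hj, Nat.zero_add]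
          rw [Nat.zero_add] at h1
          have h2 := h1.le_K
          have h3 := haK e
          rw [hae] at h3
          have h4 : K a e ≤ c := by exact_mod_cast h3
          omega
        · have haβ : a β = c := by
            have := copy 0 he0 (by omega)
            rwa [Nat.add_zero, ha0] at this
          have hpγ : γ < p := by
            by_contra hle
            have h1 := hpp (β - p) (by omega) (by omega)
            have h2 : β - p + p = β := by omega
            rw [h2, haβ] at h1
            have h3 := hblk2 (ℓ - p) (by omega)
            have h4 : β - ℓ + (ℓ - p) = β - p := by omega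
            rw [h4, h1] at h3
            omega
          obtain ⟨m', hm'⟩ : ∃ m', m = m' + 1 := ⟨m - 1, by omega⟩
          have e1 : m * p = m' * p + p := by rw [hm']; ring
          have hi2 : i = m' * p + (p - γ) := by omega
          have hperi : ∀ j, j + p < i → a j = a (j + p) := by
            intro j hj
            have h1 := hpp (β + j) (by omega) (by omega)
            have h2 : β + j + p = β + (j + p) := by ring
            rw [h2, copy j (by omega) (by omega), copy (j + p) (by omega) (by omega)] at h1
            exact h1
          have hiter : ∀ k j, j + k * p < i → a j = a (j + k * p) := by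
            intro k
            induction k with
            | zero => intro j _; simp
            | succ k ihk =>
              intro j hj
              have e2 : (k + 1) * p = k * p + p := by ring
              rw [e2] at hj
              rw [ihk j (by omega), e2, ← add_assoc]
              exact hperi (j + k * p) (by omega)
          have hrepi : Rep a i p m' :=
            ⟨hp0, by omega, fun j _ hj => hperi j hj⟩
          have hKi := hrepi.le_K
          have hKi2 : K a i = m' := by omega
          have hm'1 : 1 ≤ m' := by omega
          have hpm' : p ≤ m' * p := by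
            calc p = 1 * p := (Nat.one_mul p).symm
              _ ≤ m' * p := Nat.mul_le_mul_right p hm'1
          have hbig : (c : ℤ) + 1 ≤ a (p - γ) := by
            have h1 := hpp (β - γ) (by omega) (by omega)
            have h2 : β - γ + p = β + (p - γ) := by omega
            rw [h2, copy (p - γ) (by omega) (by omega)] at h1
            rw [← h1]
            have h3 := hblk2 (ℓ - γ) (by omega)
            have h4 : β - ℓ + (ℓ - γ) = β - γ := by omega
            rwa [h4] at h3
          have hK1 := haK' _ hbig
          obtain ⟨r, hr⟩ := exists_rep_K (w := a) (n := p - γ) (by omega)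
          have h5 : Rep a (m' * p + (p - γ)) r (K a (p - γ)) := by
            refine Rep.shift (a := 0) (b := m' * p) (n := p - γ) (by rwa [Nat.zero_add])
              hr.2.1 ?_
            intro j hj
            rw [Nat.zero_add, Nat.add_comm (m' * p) j]
            exact hiter m' j (by omega)
          rw [← hi2] at h5
          have h6 := h5.le_K
          have hm'c : c + 1 ≤ m' := by omega
          have h7 : (c + 1) * p ≤ m' * p := Nat.mul_le_mul_right p hm'c
          have h8 := hiter (c + 1) 0 (by omega)
          rw [Nat.zero_add, ha0] at h8
          have h9 : Rep a ((c + 1) * p) p (c + 1) :=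
            ⟨hp0, le_rfl, fun j _ hj => hperi j (by omega)⟩
          have h10 := h9.le_K
          have h11 := haK ((c + 1) * p)
          rw [← h8] at h11
          have h12 : K a ((c + 1) * p) ≤ c := by exact_mod_cast h11
          omega
  -- conclusion
  have hce : (c + 1) * e = c * e + e := by ring
  have hmod : ∀ j, j < e → a (c * e + j) = a j := by
    intro j hj
    rw [claim (c * e + j) (by omega), Nat.add_comm, Nat.add_mul_mod_self_right,
      Nat.mod_eq_of_lt hj]
  have hrep : Rep a ((c + 1) * e) e (c + 1) := by
    refine ⟨he0, le_rfl, ?_⟩
    intro j _ hj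
    rw [claim j (by omega), claim (j + e) hj, Nat.add_mod_right]
  have hK := hrep.le_K
  refine hmax (c * e + x) (by omega) ?_ ?_
  · have h1 : c * e + x - 1 = c * e + (x - 1) := by omega
    rw [h1, hmod (x - 1) (by omega), hx1]
  · intro t ht
    rcases Nat.lt_or_ge t ℓ with h1 | h1
    · have h2 : c * e + x + t = c * e + (x + t) := by ring
      rw [h2, hmod (x + t) (by omega)]
      exact hx2 t h1
    · have h2 : c * e + x + t = (c + 1) * e := by omega
      rw [h2]
      calc (c : ℤ) + 1 ≤ (K a ((c + 1) * e) : ℤ) := by exact_mod_cast hK
        _ ≤ a ((c + 1) * e) := haK _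

/-- **Lemma U.** The sequence `A c` contains arbitrarily long blocks of letters above `c`. -/
theorem lemmaU {c : ℕ} (hc : 3 ≤ c) (ℓ : ℕ) :
    ∃ x, 1 ≤ x ∧ A c (x - 1) = c ∧ ∀ t < ℓ, (c : ℤ) + 1 ≤ A c (x + t) := by
  classical
  induction ℓ with
  | zero =>
    refine ⟨1, le_rfl, ?_, fun t ht => by omega⟩
    rw [A_rule c (1 - 1)]
    simp [K]
  | succ ℓ ih =>
    by_contra hno
    push Not at hno
    obtain ⟨x, hx⟩ : ∃ x, x = Nat.find ih := ⟨_, rfl⟩
    have hspec : 1 ≤ x ∧ A c (x - 1) = c ∧ ∀ t < ℓ, (c : ℤ) + 1 ≤ A c (x + t) := by
      rw [hx]; exact Nat.find_spec ih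
    refine restart hc (A_rule c) hspec.1 hspec.2.1 hspec.2.2 ?_ ?_
    · intro y hy1 hy2 hy3
      rw [hx]
      exact Nat.find_min' ih ⟨hy1, hy2, hy3⟩
    · intro y hy1 hy2 hy3
      obtain ⟨t, ht, ht2⟩ := hno y hy1 hy2
      have := hy3 t ht
      omega

end Pool.Agent.Helper16.Curl
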