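import Mathlib

set_option autoImplicit false

namespace Pool.Agent.Helper16.Curl

variable {α : Type*}

/-- `Rep w n p k`: the initial segment of length `n` of the word `w` ends with a `k`-th power of a word of
length `p`. -/
def Rep (w : ℕ → α) (n p k : ℕ) : Prop :=
  0 < p ∧ k * p ≤ n ∧ ∀ i, n ≤ i + k * p → i + p < n → w i = w (i + p)

/-- The curling number of the initial segment of length `n` of the word `w`. -/
noncomputable def K (w : ℕ → α) (n : ℕ) : ℕ :=
  letI := Classical.decPred (fun k => ∃ p, Rep w n p k)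
  Nat.findGreatest (fun k => ∃ p, Rep w n p k) n

theorem Rep.le_n {w : ℕ → α} {n p k : ℕ} (h : Rep w n p k) : k ≤ n := by
  obtain ⟨h1, h2, _⟩ := h
  calc k = k * 1 := (Nat.mul_one k).symm
    _ ≤ k * p := Nat.mul_le_mul_left k h1
    _ ≤ n := h2

theorem Rep.le_K {w : ℕ → α} {n p k : ℕ} (h : Rep w n p k) : k ≤ K w n := by
  classical
  unfold K
  exact Nat.le_findGreatest h.le_n ⟨p, h⟩

theorem rep_one {w : ℕ → α} {n : ℕ} (hn : 0 < n) : Rep w n 1 1 := by
  refine ⟨one_pos, by omega, ?_⟩
  intro i h1 h2
  omega

theorem K_pos {w : ℕ → α} {n : ℕ} (hn : 0 < n) : 1 ≤ K w n := (rep_one hn).le_K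

theorem exists_rep_K {w : ℕ → α} {n : ℕ} (hn : 0 < n) : ∃ p, Rep w n p (K w n) := by
  classical
  have h1 : ∃ p, Rep w n p 1 := ⟨1, rep_one hn⟩
  unfold K
  exact Nat.findGreatest_spec (P := fun k => ∃ p, Rep w n p k) (m := 1) hn h1

theorem Rep.mono {w : ℕ → α} {n p k j : ℕ} (h : Rep w n p k) (hj : j ≤ k) : Rep w n p j := by
  obtain ⟨h1, h2, h3⟩ := h
  have : j * p ≤ k * p := Nat.mul_le_mul_right p hj
  refine ⟨h1, by omega, ?_⟩
  intro i hi hi2
  exact h3 i (by omega) hi2

theorem Rep.congr {w v : ℕ → α} {n p k : ℕ} (h : Rep w n p k) (hw : ∀ i < n, w i = v i) :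
    Rep v n p k := by
  obtain ⟨h1, h2, h3⟩ := h
  refine ⟨h1, h2, ?_⟩
  intro i hi hi2
  rw [← hw i (by omega), ← hw (i + p) hi2]
  exact h3 i hi hi2

theorem K_congr {w v : ℕ → α} {n : ℕ} (hw : ∀ i < n, w i = v i) : K w n = K v n := by
  rcases Nat.eq_zero_or_pos n with hn | hn
  · subst hn
    simp [K]
  · apply le_antisymm
    · obtain ⟨p, hp⟩ := exists_rep_K (w := w) hn
      exact (hp.congr hw).le_K
    · obtain ⟨p, hp⟩ := exists_rep_K (w := v) hn
      exact (hp.congr (fun i hi => (hw i hi).symm)).le_K

/-- Removing the last letter lowers an exponent by at most one. -/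
theorem Rep.pred {w : ℕ → α} {n p k : ℕ} (h : Rep w (n + 1) p (k + 1)) : Rep w n p k := by
  obtain ⟨h1, h2, h3⟩ := h
  have e : (k + 1) * p = k * p + p := by ring
  rw [e] at h2 h3
  refine ⟨h1, by omega, ?_⟩
  intro i hi hi2
  exact h3 i (by omega) (by omega)

theorem K_succ_le {w : ℕ → α} {n : ℕ} (hn : 0 < n) : K w (n + 1) ≤ K w n + 1 := by
  obtain ⟨p, hp⟩ := exists_rep_K (w := w) (n := n + 1) (by omega)
  rcases Nat.eq_zero_or_pos (K w (n + 1)) with h0 | h0
  · omega
  · obtain ⟨m, hm⟩ : ∃ m, K w (n + 1) = m + 1 := ⟨K w (n + 1) - 1, by omega⟩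
    rw [hm] at hp
    have := hp.pred.le_K
    omega

/-- The last copy of a power: every initial segment ending inside the last copy ends with a power whose
exponent is at least one less. -/
theorem Rep.inner {w : ℕ → α} {n p k t : ℕ} (h : Rep w n p (k + 1)) (ht : n ≤ t + p)
    (ht2 : t < n) : Rep w t p k := by
  obtain ⟨h1, h2, h3⟩ := h
  have e : (k + 1) * p = k * p + p := by ring
  rw [e] at h2 h3
  refine ⟨h1, by omega, ?_⟩
  intro i hi hi2
  exact h3 i (by omega) (by omega)

/-- Letters of a power repeat with period `p`, iterated. -/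
theorem Rep.iter {w : ℕ → α} {n p k : ℕ} (h : Rep w n p k) :
    ∀ (m i : ℕ), n ≤ i + k * p → i + m * p < n → w i = w (i + m * p) := by
  obtain ⟨h1, h2, h3⟩ := h
  intro m
  induction m with
  | zero => intro i _ _; simp
  | succ m ih =>
    intro i hi hi2
    have e : (m + 1) * p = m * p + p := by ring
    rw [e] at hi2
    rw [ih i hi (by omega), e, ← add_assoc]
    exact h3 (i + m * p) (by omega) (by omega)

/-- Shift of a power inside an agreement region. -/
theorem Rep.shift {w v : ℕ → α} {n a b p k : ℕ} (h : Rep w (a + n) p k) (hk : k * p ≤ n)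
    (hw : ∀ i < n, w (a + i) = v (b + i)) : Rep v (b + n) p k := by
  obtain ⟨h1, h2, h3⟩ := h
  refine ⟨h1, by omega, ?_⟩
  intro i hi hi2
  obtain ⟨j, rfl⟩ : ∃ j, i = b + j := ⟨i - b, by omega⟩
  have hj : j + p < n := by omega
  rw [← hw j (by omega)]
  have : b + j + p = b + (j + p) := by ring
  rw [this, ← hw (j + p) hj]
  have h4 := h3 (a + j) (by omega) (by omega)
  rw [h4]
  congr 1
  omega

/-- Fine–Wilf (weak form) on an interval `[a, b)`. -/
theorem fineWilf {w : ℕ → α} : ∀ (s p q a b : ℕ), p + q = s → 0 < p → 0 < q → a + p + q ≤ b →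
    (∀ i, a ≤ i → i + p < b → w i = w (i + p)) →
    (∀ i, a ≤ i → i + q < b → w i = w (i + q)) →
    ∀ i, a ≤ i → i + Nat.gcd p q < b → w i = w (i + Nat.gcd p q) := by
  intro s
  induction s using Nat.strong_induction_on with
  | _ s ih =>
    intro p q a b hs hp hq hab h1 h2
    rcases lt_trichotomy p q with hlt | heq | hgt
    · -- replace q by q - p
      have h3 : ∀ i, a ≤ i → i + (q - p) < b → w i = w (i + (q - p)) := by
        intro i hi hi2
        by_cases hc : i + q < b
        · have e1 := h2 i hi hc
          have e2 := h1 (i + (q - p)) (by omega) (by omega)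
          have e3 : i + (q - p) + p = i + q := by omega
          rw [e3] at e2
          rw [e1, e2]
        · have e1 := h1 (i - p) (by omega) (by omega)
          have e2 := h2 (i - p) (by omega) (by omega)
          have e3 : i - p + p = i := by omega
          have e4 : i - p + q = i + (q - p) := by omega
          rw [e3] at e1
          rw [e4] at e2
          rw [← e1, e2]
      have := ih (p + (q - p)) (by omega) p (q - p) a b rfl hp (by omega) (by omega) h1 h3
      have hg : Nat.gcd p (q - p) = Nat.gcd p q := by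
        rw [Nat.gcd_sub_self_right hlt.le]
      rwa [hg] at this
    · subst heq
      simpa using h1
    · have h3 : ∀ i, a ≤ i → i + (p - q) < b → w i = w (i + (p - q)) := by
        intro i hi hi2
        by_cases hc : i + p < b
        · have e1 := h1 i hi hc
          have e2 := h2 (i + (p - q)) (by omega) (by omega)
          have e3 : i + (p - q) + q = i + p := by omega
          rw [e3] at e2
          rw [e1, e2]
        · have e1 := h2 (i - q) (by omega) (by omega)
          have e2 := h1 (i - q) (by omega) (by omega)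
          have e3 : i - q + q = i := by omega
          have e4 : i - q + p = i + (p - q) := by omega
          rw [e3] at e1
          rw [e4] at e2
          rw [← e1, e2]
      have := ih ((p - q) + q) (by omega) (p - q) q a b rfl (by omega) hq (by omega) h3 h2
      have hg : Nat.gcd (p - q) q = Nat.gcd p q := by
        rw [Nat.gcd_sub_self_left hgt.le]
      rwa [hg] at this

/-- On an interval of period `q` in which the first `2 q` letters have the period `d ∣ q`, the whole
interval has period `d`. -/
theorem extend_period {w : ℕ → α} {s t q d : ℕ} (hq : 0 < q) (hd : d ∣ q) (hd0 : 0 < d)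
    (h1 : ∀ i, s ≤ i → i + q < t → w i = w (i + q))
    (h2 : ∀ i, s ≤ i → i + d < s + 2 * q → i + d < t → w i = w (i + d)) :
    ∀ i, s ≤ i → i + d < t → w i = w (i + d) := by
  have hdq : d ≤ q := Nat.le_of_dvd hq hd
  intro i
  induction i using Nat.strong_induction_on with
  | _ i ih =>
    intro hi hi2
    by_cases hc : i < s + q
    · exact h2 i hi (by omega) hi2
    · have e1 := h1 (i - q) (by omega) (by omega)
      have e2 := h1 (i - q + d) (by omega) (by omega)
      have e3 : i - q + q = i := by omega
      have e4 : i - q + d + q = i + d := by omega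
      rw [e3] at e1
      rw [e4] at e2
      rw [← e1, ← e2]
      exact ih (i - q) (by omega) (by omega) (by omega)

end Pool.Agent.Helper16.Curl
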