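import Pool.Agent.Helper16.Curl.ASeq

set_option autoImplicit false

namespace Pool.Agent.Helper16.Curl

/-- **Block lemma.** If `w t = max (c - 1) (K w t)` for all `t ≥ N`, a block of letters `≥ c` which
starts at `n` right after a letter `c - 1` is an initial segment of `A c`. -/
theorem block {w : ℕ → ℤ} {N c n L : ℕ} (hc : 2 ≤ c)
    (hw : ∀ t, N ≤ t → w t = max ((c : ℤ) - 1) (K w t : ℤ)) (hn : N + 1 ≤ n)
    (hn1 : w (n - 1) = (c : ℤ) - 1) (hL : ∀ i < L, (c : ℤ) ≤ w (n + i)) :
    ∀ i < L, w (n + i) = A c i := by
  intro i
  induction i using Nat.strong_induction_on with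
  | _ i ih =>
    intro hi
    have hag : ∀ j < i, w (n + j) = A c j := fun j hj => ih j hj (by omega)
    have hwi := hw (n + i) (by omega)
    have hge := hL i hi
    have hwK : w (n + i) = (K w (n + i) : ℤ) := by
      rw [hwi]
      apply max_eq_right
      by_contra hlt
      have h1 : max ((c : ℤ) - 1) (K w (n + i) : ℤ) = (c : ℤ) - 1 := max_eq_left (by omega)
      rw [hwi, h1] at hge
      omega
    have hKc : c ≤ K w (n + i) := by
      rw [hwK] at hge
      exact_mod_cast hge
    rw [hwK, A_rule c i]
    apply le_antisymm
    · -- upper bound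
      by_contra hlt
      rw [not_le, max_lt_iff] at hlt
      obtain ⟨h1, h2⟩ := hlt
      have h1' : c < K w (n + i) := by exact_mod_cast h1
      have h2' : K (A c) i < K w (n + i) := by exact_mod_cast h2
      obtain ⟨p, hp⟩ := exists_rep_K (w := w) (n := n + i) (by omega)
      obtain ⟨m, hm⟩ : ∃ m, K w (n + i) = m + 1 := ⟨K w (n + i) - 1, by omega⟩
      rw [hm] at hp
      rcases Nat.lt_or_ge i ((m + 1) * p) with h3 | h3
      · have h1m : K w (n - 1) ≤ c - 1 := by
          have h4 := hw (n - 1) (by omega)
          have h5 := le_max_right ((c : ℤ) - 1) (K w (n - 1) : ℤ)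
          rw [← h4, hn1] at h5
          omega
        rcases Nat.lt_or_ge i p with h4 | h4
        · have h5 := (hp.inner (t := n - 1) (by omega) (by omega)).le_K
          omega
        · have h5 := hp.2.2 (n - 1) (by omega) (by have := hp.1; omega)
          have h6 := hL (p - 1) (by omega)
          have hp0 := hp.1
          have h7 : n + (p - 1) = n - 1 + p := by omega
          rw [h7, ← h5, hn1] at h6
          omega
      · have h4 : Rep (A c) (0 + i) p (m + 1) := by
          refine hp.shift h3 ?_
          intro j hj
          rw [Nat.zero_add]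
          exact hag j hj
        rw [Nat.zero_add] at h4
        have h5 := h4.le_K
        omega
    · -- lower bound
      apply max_le
      · exact_mod_cast hKc
      · rcases Nat.eq_zero_or_pos i with h0 | h0
        · subst h0
          have : K (A c) 0 = 0 := by simp [K]
          rw [this]
          positivity
        · obtain ⟨p, hp⟩ := exists_rep_K (w := A c) h0
          have h1 : Rep w (n + i) p (K (A c) i) := by
            refine Rep.shift (a := 0) (b := n) (n := i) (by rwa [Nat.zero_add]) hp.2.1 ?_
            intro j hj
            rw [Nat.zero_add, hag j hj]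
          exact_mod_cast h1.le_K

/-- **Lemma V.** The sequences `A c`, `c ≥ 3`, are unbounded. -/
theorem lemmaV (d : ℕ) : ∀ c : ℕ, 3 ≤ c → ∃ i, ((c + d : ℕ) : ℤ) ≤ A c i := by
  induction d with
  | zero =>
    intro c _
    exact ⟨0, by rw [A_rule]; simp⟩
  | succ d ih =>
    intro c hc
    obtain ⟨i, hi⟩ := ih (c + 1) (by omega)
    obtain ⟨x, hx1, hx2, hx3⟩ := lemmaU hc (i + 1)
    have h1 := block (w := A c) (N := 0) (c := c + 1) (n := x) (L := i + 1) (by omega)
      (by
        intro t _
        have e : ((c + 1 : ℕ) : ℤ) - 1 = (c : ℤ) := by push_cast; ring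
        rw [e]
        exact A_rule c t) (by omega)
      (by rw [hx2]; push_cast; ring)
      (by intro t ht; have := hx3 t ht; push_cast; exact this) i (by omega)
    refine ⟨x + i, ?_⟩
    rw [h1]
    have e : c + (d + 1) = c + 1 + d := by ring
    rw [e]
    exact hi

end Pool.Agent.Helper16.Curl
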