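import Pool.Agent.Helper16.Curl.Basic

set_option autoImplicit false

namespace Pool.Agent.Helper16.Curl

variable {α : Type*}

/-- The word `w` has the period `q` on the interval `[s, t)`. -/
def Per (w : ℕ → α) (q s t : ℕ) : Prop := ∀ i, s ≤ i → i + q < t → w i = w (i + q)

theorem Per.rep {w : ℕ → α} {q s t k : ℕ} (h : Per w q s t) (hq : 0 < q) (hk : s + k * q ≤ t) :
    Rep w t q k := by
  refine ⟨hq, by omega, ?_⟩
  intro i hi hi2
  exact h i (by omega) hi2

theorem Per.iter {w : ℕ → α} {q s t : ℕ} (h : Per w q s t) :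
    ∀ (m i : ℕ), s ≤ i → i + m * q < t → w i = w (i + m * q) := by
  intro m
  induction m with
  | zero => intro i _ _; simp
  | succ m ih =>
    intro i hi hi2
    have e : (m + 1) * q = m * q + q := by ring
    rw [e] at hi2
    rw [ih i hi (by omega), e, ← add_assoc]
    exact h (i + m * q) (by omega) (by omega)

/-- A cube of smaller period ending inside the window lies inside the run. -/
theorem localise {w : ℕ → α} {q s t u r : ℕ} (hq : 0 < q) (hst : s + 3 * q ≤ t)
    (hper : Per w q s t) (hno : ∀ r < q, ¬ Rep w t r 3) (hu1 : s + 2 * q ≤ u)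
    (hu2 : u < s + 3 * q) (hr : r < q) (hrep : Rep w u r 3) : s + 3 * r ≤ u := by
  by_contra hc
  obtain ⟨hr0, _, hrep3⟩ := hrep
  have h1 : ∀ i, s ≤ i → i + r < u → w i = w (i + r) := fun i hi hi2 =>
    hrep3 i (by omega) hi2
  have h2 : ∀ i, s ≤ i → i + q < u → w i = w (i + q) := fun i hi hi2 =>
    hper i hi (by omega)
  have h3 := fineWilf (r + q) r q s u rfl hr0 hq (by omega) h1 h2
  have hg : Nat.gcd r q ∣ q := Nat.gcd_dvd_right r q
  have hg0 : 0 < Nat.gcd r q := Nat.gcd_pos_of_pos_left q hr0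
  have hgr : Nat.gcd r q ≤ r := Nat.le_of_dvd hr0 (Nat.gcd_dvd_left r q)
  have h4 : Per w (Nat.gcd r q) s t :=
    extend_period (s := s) (t := t) hq hg hg0 hper (fun i hi hi2 _ => h3 i hi (by omega))
  exact hno _ (by omega) (h4.rep hg0 (by omega))

/-- The situation which is shown to be impossible. -/
def CoreHyp (w : ℕ → α) (s t q : ℕ) : Prop :=
  0 < q ∧ s + 3 * q ≤ t ∧ Per w q s t ∧ (∀ r < q, ¬ Rep w t r 3) ∧
    ∀ u, s + 2 * q ≤ u → u < s + 3 * q → ∃ r < q, s + 3 * r ≤ u ∧ Rep w u r 3

theorem exists_core {w : ℕ → α} {B L T1 : ℕ} (h : ∀ t, T1 ≤ t → ∃ r ≤ B, Rep w t r 3)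
    (hL : ∀ q s t, T1 ≤ t → q ≤ B → 0 < q → (∀ r < q, ¬ Rep w t r 3) →
      Per w q s t → t < s + L) :
    ∃ q s t, q ≤ B ∧ CoreHyp w s t q := by
  classical
  have hex : ∃ b, ∃ T, T1 ≤ T ∧ ∀ t, T ≤ t → ∃ r ≤ b, Rep w t r 3 := ⟨B, T1, le_rfl, h⟩
  obtain ⟨b, hb⟩ : ∃ b, b = Nat.find hex := ⟨_, rfl⟩
  have hbB : b ≤ B := by rw [hb]; exact Nat.find_min' hex ⟨T1, le_rfl, h⟩
  obtain ⟨T0, hT0, hT⟩ : ∃ T, T1 ≤ T ∧ ∀ t, T ≤ t → ∃ r ≤ b, Rep w t r 3 := by
    rw [hb]; exact Nat.find_spec hex
  have hb0 : 0 < b := by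
    obtain ⟨r, hr, hr2⟩ := hT T0 le_rfl
    have := hr2.1
    omega
  have hmin : ¬ ∃ T, T1 ≤ T ∧ ∀ t, T ≤ t → ∃ r ≤ b - 1, Rep w t r 3 :=
    Nat.find_min hex (m := b - 1) (by omega)
  push Not at hmin
  obtain ⟨t, ht, htn⟩ := hmin (T0 + L) (by omega)
  have hno : ∀ r < b, ¬ Rep w t r 3 := fun r hr => htn r (by omega)
  have hrep : Rep w t b 3 := by
    obtain ⟨r, hr, hr2⟩ := hT t (by omega)
    rcases Nat.lt_or_ge r b with h1 | h1
    · exact absurd hr2 (hno r h1)
    · have : r = b := by omega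
      rwa [this] at hr2
  have hexs : ∃ s, Per w b s t := ⟨t, fun i hi hi2 => by omega⟩
  obtain ⟨s, hs⟩ : ∃ s, s = Nat.find hexs := ⟨_, rfl⟩
  have hper : Per w b s t := by rw [hs]; exact Nat.find_spec hexs
  have hsm : ∀ s', s' < s → ¬ Per w b s' t := fun s' hs' => Nat.find_min hexs (by omega)
  have hst : s + 3 * b ≤ t := by
    by_contra hc
    have h3 := hrep.2.1
    refine hsm (t - 3 * b) (by omega) ?_
    intro i hi hi2
    exact hrep.2.2 i (by omega) hi2
  have htL := hL b s t (by omega) hbB hb0 hno hper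
  refine ⟨b, s, t, hbB, hb0, hst, hper, hno, ?_⟩
  intro u hu1 hu2
  obtain ⟨r, hr, hr2⟩ := hT u (by omega)
  rcases Nat.lt_or_ge r b with h1 | h1
  · exact ⟨r, h1, localise hb0 hst hper hno hu1 hu2 h1 hr2, hr2⟩
  · exfalso
    have hrb : r = b := by omega
    subst hrb
    obtain ⟨_, h3, h4⟩ := hr2
    refine hsm (u - 3 * r) (by omega) ?_
    intro i hi hi2
    by_cases hc : s ≤ i
    · exact hper i hc hi2
    · exact h4 i (by omega) (by omega)

theorem core_false : ∀ (q : ℕ) (w : ℕ → α) (s t : ℕ), ¬ CoreHyp w s t q := by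
  intro q
  induction q using Nat.strong_induction_on with
  | _ q ih =>
    rintro w s t ⟨hq, hst, hper, hno, hwin⟩
    obtain ⟨Z, hZ⟩ : ∃ Z : ℕ → α, Z = fun i => w (s + i % q) := ⟨_, rfl⟩
    have hZq : ∀ i, Z (i + q) = Z i := by
      intro i
      rw [hZ]
      simp
    have hZm : ∀ m i, Z (i + m * q) = Z i := by
      intro m
      induction m with
      | zero => intro i; simp
      | succ m ihm =>
        intro i
        have e : i + (m + 1) * q = i + m * q + q := by ring
        rw [e, hZq, ihm]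
    have hwZ : ∀ i, i < 3 * q → w (s + i) = Z i := by
      intro i hi
      rw [hZ]
      have h1 := hper.iter (i / q) (s + i % q) (by omega)
      have h2 : i % q + i / q * q = i := by rw [Nat.mul_comm]; exact Nat.mod_add_div i q
      have h3 : s + i % q + i / q * q = s + i := by omega
      rw [h3] at h1
      exact (h1 (by omega)).symm
    have hcube : ∀ i, 2 * q ≤ i → ∃ r ≤ q - 1, Rep Z i r 3 := by
      intro i hi
      have hlt : i % q < q := Nat.mod_lt i hq
      obtain ⟨r, hr, hr2, hr3⟩ := hwin (s + (2 * q + i % q)) (by omega) (by omega)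
      have h1 : Rep Z (0 + (2 * q + i % q)) r 3 := by
        refine hr3.shift (by omega) ?_
        intro j hj
        rw [Nat.zero_add]
        exact hwZ j (by omega)
      have h2 : i % q + i / q * q = i := by rw [Nat.mul_comm]; exact Nat.mod_add_div i q
      have h5 : 2 ≤ i / q := by
        rw [Nat.le_div_iff_mul_le hq]; exact hi
      obtain ⟨m, hm⟩ : ∃ m, i / q = m + 2 := ⟨i / q - 2, by omega⟩
      have h3 : Rep Z (m * q + (2 * q + i % q)) r 3 := by
        refine Rep.shift (a := 0) (b := m * q) h1 (by omega) ?_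
        intro j hj
        rw [Nat.zero_add, Nat.add_comm (m * q) j, hZm]
      refine ⟨r, by omega, ?_⟩
      have h6 : m * q + (2 * q + i % q) = i := by
        rw [hm] at h2
        have e : (m + 2) * q = m * q + 2 * q := by ring
        rw [e] at h2
        omega
      rwa [h6] at h3
    have hrun : ∀ q' s' t', 2 * q ≤ t' → q' ≤ q - 1 → 0 < q' → (∀ r < q', ¬ Rep Z t' r 3) →
        Per Z q' s' t' → t' < s' + 2 * q := by
      intro q' s' t' ht' hq' hq0 _ hper'
      by_contra hc
      have h1 : ∀ i, s' ≤ i → i + q < t' → Z i = Z (i + q) := fun i _ _ => (hZq i).symm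
      have h3 := fineWilf (q' + q) q' q s' t' rfl hq0 hq (by omega) hper' h1
      have hg : Nat.gcd q' q ∣ q := Nat.gcd_dvd_right q' q
      have hg0 : 0 < Nat.gcd q' q := Nat.gcd_pos_of_pos_left q hq0
      have hgr : Nat.gcd q' q ≤ q' := Nat.le_of_dvd hq0 (Nat.gcd_dvd_left q' q)
      obtain ⟨g, hgdef⟩ : ∃ g, g = Nat.gcd q' q := ⟨_, rfl⟩
      rw [← hgdef] at h3 hg hg0 hgr
      have h4 : ∀ i, s' ≤ i → Z i = Z (i + g) := by
        intro i
        induction i using Nat.strong_induction_on with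
        | _ i ihi =>
          intro hi
          by_cases hc2 : i < s' + q
          · exact h3 i hi (by omega)
          · have e1 := hZq (i - q)
            have e2 := hZq (i - q + g)
            have e3 : i - q + q = i := by omega
            have e4 : i - q + g + q = i + g := by omega
            rw [e3] at e1
            rw [e4] at e2
            rw [e1, e2]
            exact ihi (i - q) (by omega) (by omega)
      have h5 : ∀ i, Z i = Z (i + g) := by
        intro i
        have h6 : s' ≤ i + s' * q := by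
          have : s' * 1 ≤ s' * q := Nat.mul_le_mul_left s' hq
          omega
        have h7 := h4 (i + s' * q) h6
        have h8 : i + s' * q + g = i + g + s' * q := by ring
        rw [h8, hZm, hZm] at h7
        exact h7
      have h6 : Per w g s t := by
        refine extend_period (s := s) (t := t) hq hg hg0 hper ?_
        intro i hi hi2 hi3
        obtain ⟨j, rfl⟩ : ∃ j, i = s + j := ⟨i - s, by omega⟩
        have e : s + j + g = s + (j + g) := by ring
        rw [e, hwZ j (by omega), hwZ (j + g) (by omega)]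
        exact h5 j
      exact hno g (by omega) (h6.rep hg0 (by omega))
    obtain ⟨q', s', t', hq', hcore⟩ := exists_core (w := Z) (B := q - 1) (L := 2 * q)
      (T1 := 2 * q) hcube hrun
    exact ih q' (by omega) Z s' t' hcore

/-- **Cubes theorem.** An infinite word whose initial segments have bounded exponents cannot have
a cube ending at every large position. -/
theorem no_eventual_cubes {w : ℕ → α} {M t0 : ℕ} (hM : ∀ t, K w t ≤ M)
    (h : ∀ t, t0 ≤ t → ∃ p, Rep w t p 3) : False := by
  classical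
  by_cases hB : ∃ B, ∀ t, t0 ≤ t → ∃ r ≤ B, Rep w t r 3
  · obtain ⟨B, hB⟩ := hB
    obtain ⟨q, s, t, _, hcore⟩ := exists_core (w := w) (B := B) (L := (M + 1) * B + 1)
      (T1 := t0) hB (by
        intro q s t _ hqB hq _ hper
        by_contra hc
        have h1 : (M + 1) * q ≤ (M + 1) * B := Nat.mul_le_mul_left _ hqB
        have h2 := (hper.rep (k := M + 1) hq (by omega)).le_K
        have := hM t
        omega)
    exact core_false q w s t hcore
  · push Not at hB
    obtain ⟨t1, ht1⟩ := hB t0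
    have hex : ∃ t, t0 ≤ t ∧ ∀ r ≤ t0, ¬ Rep w t r 3 := ⟨t1, ht1.1, ht1.2⟩
    obtain ⟨t, ht⟩ : ∃ t, t = Nat.find hex := ⟨_, rfl⟩
    have htspec : t0 ≤ t ∧ ∀ r ≤ t0, ¬ Rep w t r 3 := by rw [ht]; exact Nat.find_spec hex
    have htmin : ∀ u, u < t → ¬ (t0 ≤ u ∧ ∀ r ≤ t0, ¬ Rep w u r 3) := fun u hu =>
      Nat.find_min hex (by omega)
    have hexq : ∃ q, Rep w t q 3 := h t htspec.1
    obtain ⟨q, hq⟩ : ∃ q, q = Nat.find hexq := ⟨_, rfl⟩
    have hqspec : Rep w t q 3 := by rw [hq]; exact Nat.find_spec hexq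
    have hqmin : ∀ r < q, ¬ Rep w t r 3 := fun r hr => Nat.find_min hexq (by omega)
    have hqt : t0 < q := by
      by_contra hc
      exact htspec.2 q (by omega) hqspec
    have h3 := hqspec.2.1
    have hq0 := hqspec.1
    have hper : Per w q (t - 3 * q) t := fun i hi hi2 => hqspec.2.2 i (by omega) hi2
    refine core_false q w (t - 3 * q) t ⟨hq0, by omega, hper, hqmin, ?_⟩
    intro u hu1 hu2
    have hu := htmin u (by omega)
    push Not at hu
    obtain ⟨r, hr, hr2⟩ := hu (by omega)
    exact ⟨r, by omega, localise hq0 (by omega) hper hqmin hu1 hu2 (by omega) hr2, hr2⟩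

end Pool.Agent.Helper16.Curl
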