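import Pool.Agent.Helper16.Curl.Tail

set_option autoImplicit false

namespace Pool.Agent.Helper16.Curl

variable {α : Type*}

/-- A repeated word is periodic. -/
theorem flatten_period (Y : List α) (k : ℕ) : ∀ j, j + Y.length < k * Y.length →
    ((List.replicate k Y).flatten)[j]? = ((List.replicate k Y).flatten)[j + Y.length]? := by
  intro j hj
  rcases k with _ | k
  · omega
  have e : (k + 1) * Y.length = k * Y.length + Y.length := by ring
  rw [e] at hj
  have hlen : (List.replicate k Y).flatten.length = k * Y.length := by simp
  have h1 : (List.replicate (k + 1) Y).flatten = Y ++ (List.replicate k Y).flatten := by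
    simp [List.replicate_succ]
  have h2 : (List.replicate (k + 1) Y).flatten = (List.replicate k Y).flatten ++ Y := by
    rw [List.replicate_succ']
    simp
  have h3 : ((List.replicate (k + 1) Y).flatten)[j]? = ((List.replicate k Y).flatten)[j]? := by
    rw [h2, List.getElem?_append_left (by omega)]
  have h4 : ((List.replicate (k + 1) Y).flatten)[j + Y.length]?
      = ((List.replicate k Y).flatten)[j]? := by
    rw [h1, List.getElem?_append_right (by omega)]
    congr 1
    omega
  rw [h3, h4]

/-- The powers at the end of a list, in terms of `Rep`. -/
theorem power_iff (w : ℕ → α) (n k : ℕ) :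
    (∃ X Y : List α, Y ≠ [] ∧ (List.range n).map w = X ++ (List.replicate k Y).flatten) ↔
      ∃ p, Rep w n p k := by
  constructor
  · rintro ⟨X, Y, hY, h⟩
    have hY0 : 0 < Y.length := List.length_pos_of_ne_nil hY
    have hlen := congrArg List.length h
    simp only [List.length_map, List.length_range, List.length_append, List.length_flatten,
      List.map_replicate, List.sum_replicate, smul_eq_mul] at hlen
    refine ⟨Y.length, hY0, by omega, ?_⟩
    intro i hi hi2
    have key : ∀ i, X.length ≤ i → i < n →
        some (w i) = ((List.replicate k Y).flatten)[i - X.length]? := by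
      intro i hi hi2
      have h1 : ((List.range n).map w)[i]? = some (w i) := by
        simp [hi2]
      rw [← h1, h, List.getElem?_append_right hi]
    have h1 := key i (by omega) (by omega)
    have h2 := key (i + Y.length) (by omega) hi2
    have h3 := flatten_period Y k (i - X.length) (by omega)
    have h4 : i + Y.length - X.length = i - X.length + Y.length := by omega
    rw [h4, ← h3, ← h1] at h2
    exact (Option.some.inj h2).symm
  · rintro ⟨p, hp⟩
    have hp0 := hp.1
    obtain ⟨Y, hY⟩ : ∃ Y : List α, Y = (List.range p).map (fun j => w (n - p + j)) := ⟨_, rfl⟩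
    rcases Nat.eq_zero_or_pos k with hk | hk
    · subst hk
      refine ⟨(List.range n).map w, [w 0], by simp, by simp⟩
    refine ⟨(List.range (n - k * p)).map w, Y, ?_, ?_⟩
    · rw [hY]
      intro h
      have := congrArg List.length h
      simp at this
      omega
    · have claim : ∀ j, j ≤ k →
          (List.range n).map w = (List.range (n - j * p)).map w ++ (List.replicate j Y).flatten := by
        intro j
        induction j with
        | zero => intro _; simp
        | succ j ih =>
          intro hj
          have e : (j + 1) * p = j * p + p := by ring
          have e2 : (j + 1) * p ≤ k * p := Nat.mul_le_mul_right p hj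
          have hn := hp.2.1
          rw [ih (by omega), List.replicate_succ, List.flatten_cons, ← List.append_assoc]
          congr 1
          have h1 : n - j * p = (n - (j + 1) * p) + p := by omega
          rw [h1, List.range_add, List.map_append, List.map_map, hY]
          congr 1
          apply List.map_congr_left
          intro i hi
          rw [List.mem_range] at hi
          simp only [Function.comp]
          have h2 := hp.iter j (n - (j + 1) * p + i) (by omega) (by omega)
          rw [h2]
          congr 1
          omega
      exact claim k le_rfl

/-- The curling number of a list, in terms of `K`. -/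
theorem isGreatest_iff (w : ℕ → α) {n : ℕ} (hn : 0 < n) (c : ℕ) :
    IsGreatest {k : ℕ | ∃ X Y : List α, Y ≠ [] ∧
      (List.range n).map w = X ++ (List.replicate k Y).flatten} c ↔ c = K w n := by
  have hset : {k : ℕ | ∃ X Y : List α, Y ≠ [] ∧
      (List.range n).map w = X ++ (List.replicate k Y).flatten} = {k | ∃ p, Rep w n p k} := by
    ext k
    exact power_iff w n k
  rw [hset]
  have hK : IsGreatest {k | ∃ p, Rep w n p k} (K w n) :=
    ⟨exists_rep_K hn, fun k ⟨_, hp⟩ => hp.le_K⟩
  constructor
  · intro h
    exact h.unique hK
  · rintro rfl
    exact hK

/-- The infinite word of a curling sequence. -/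
theorem exists_word {f : ℕ → List ℤ} (h0 : f 0 ≠ []) (hf : ∀ n : ℕ, ∃ c : ℤ, f (n + 1) = f n ++ [c]) :
    ∃ (w : ℕ → ℤ), ∀ n, f n = (List.range ((f 0).length + n)).map w := by
  have hlen : ∀ n, (f n).length = (f 0).length + n := by
    intro n
    induction n with
    | zero => rfl
    | succ n ih =>
      obtain ⟨c, hc⟩ := hf n
      rw [hc, List.length_append, ih]
      simp
      ring
  have hN : 0 < (f 0).length := List.length_pos_of_ne_nil h0
  have hstep : ∀ n m i, i < (f n).length → (f (n + m))[i]? = (f n)[i]? := by
    intro n m
    induction m with
    | zero => intro i _; rfl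
    | succ m ih =>
      intro i hi
      obtain ⟨c, hc⟩ := hf (n + m)
      have e : n + (m + 1) = n + m + 1 := by ring
      have h1 := hlen n
      have h2 := hlen (n + m)
      rw [e, hc, List.getElem?_append_left (by omega), ih i hi]
  refine ⟨fun i => (f i)[i]?.getD 0, ?_⟩
  intro n
  apply List.ext_getElem?
  intro i
  rcases Nat.lt_or_ge i (f n).length with hi | hi
  · have hi2 := hi
    rw [hlen n] at hi2
    have h1 : ((List.range ((f 0).length + n)).map (fun i => (f i)[i]?.getD 0))[i]?
        = some ((f i)[i]?.getD 0) := by
      simp [hi2]
    rw [h1]
    have h2 : (f i)[i]? = (f n)[i]? := by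
      rcases Nat.le_total i n with h3 | h3
      · obtain ⟨m, rfl⟩ : ∃ m, n = i + m := ⟨n - i, by omega⟩
        have h4 := hlen i
        rw [hstep i m i (by omega)]
      · obtain ⟨m, rfl⟩ : ∃ m, i = n + m := ⟨i - n, by omega⟩
        rw [hstep n m _ hi]
    rw [h2, List.getElem?_eq_getElem hi]
    rfl
  · rw [List.getElem?_eq_none hi, List.getElem?_eq_none]
    simp only [List.length_map, List.length_range]
    rw [← hlen n]
    exact hi

end Pool.Agent.Helper16.Curl
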