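import Pool.Agent.Helper16.Curl.Block
import Pool.Agent.Helper16.Curl.Cubes

set_option autoImplicit false

namespace Pool.Agent.Helper16.Curl

/-- Descent on the block length. -/
theorem descent {P : ℕ → Prop} {len : ℕ → ℕ} {B T0 : ℕ}
    (hB : ∀ n, T0 ≤ n → P n → len n ≤ B)
    (hstep : ∀ n, T0 ≤ n → P n → ∃ n', P n' ∧ len n' < len n ∧ 2 * n ≤ 3 * n' + 1) :
    ∃ T, ∀ n, T ≤ n → ¬ P n := by
  have h : ∀ ℓ : ℕ, ∃ T, T0 ≤ T ∧ ∀ n, T ≤ n → P n → ℓ ≤ len n := by
    intro ℓ
    induction ℓ with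
    | zero => exact ⟨T0, le_rfl, fun n _ _ => Nat.zero_le _⟩
    | succ ℓ ih =>
      obtain ⟨T, hT, hT2⟩ := ih
      refine ⟨2 * T + 1, by omega, ?_⟩
      intro n hn hP
      obtain ⟨n', h1, h2, h3⟩ := hstep n (by omega) hP
      have := hT2 n' (by omega) h1
      omega
  obtain ⟨T, hT, hT2⟩ := h (B + 1)
  refine ⟨T, fun n hn hP => ?_⟩
  have h1 := hT2 n hn hP
  have h2 := hB n (by omega) hP
  omega

/-- `Tail w N`: from position `N` on, the letters of `w` are the curling numbers, all `≥ 2`. -/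
def Tail (w : ℕ → ℤ) (N : ℕ) : Prop :=
  1 ≤ N ∧ (∀ t, N ≤ t → w t = (K w t : ℤ)) ∧ ∀ t, N ≤ t → 2 ≤ w t

namespace Tail

variable {w : ℕ → ℤ} {N : ℕ}

theorem early (h : Tail w N) : ∀ t, ∃ j < N, w j = w t := by
  intro t
  induction t using Nat.strong_induction_on with
  | _ t ih =>
    rcases Nat.lt_or_ge t N with h1 | h1
    · exact ⟨t, h1, rfl⟩
    · have h2 := h.2.1 (t + 1) (by omega)
      have h3 := h.2.2 (t + 1) (by omega)
      have h4 : 2 ≤ K w (t + 1) := by
        rw [h2] at h3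
        exact_mod_cast h3
      obtain ⟨p, hp⟩ := exists_rep_K (w := w) (n := t + 1) (by omega)
      have hp2 := hp.mono h4
      obtain ⟨hp0, hp1, hp3⟩ := hp2
      have h5 := hp3 (t - p) (by omega) (by omega)
      have h6 : t - p + p = t := by omega
      rw [h6] at h5
      obtain ⟨j, hj, hj2⟩ := ih (t - p) (by omega)
      exact ⟨j, hj, by rw [hj2, h5]⟩

theorem bounded (h : Tail w N) : ∃ M : ℕ, ∀ t, K w t ≤ M := by
  have h1 : ∃ M : ℕ, ∀ j < N, w j ≤ (M : ℤ) := by
    have : ∀ n : ℕ, ∃ M : ℕ, ∀ j < n, w j ≤ (M : ℤ) := by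
      intro n
      induction n with
      | zero => exact ⟨0, fun j hj => by omega⟩
      | succ n ih =>
        obtain ⟨M, hM⟩ := ih
        refine ⟨M + (w n).toNat, ?_⟩
        intro j hj
        have h5 := Int.self_le_toNat (w n)
        push_cast
        rcases Nat.lt_or_ge j n with h6 | h6
        · have := hM j h6
          omega
        · have : j = n := by omega
          subst this
          omega
    exact this N
  obtain ⟨M, hM⟩ := h1
  refine ⟨M + N, ?_⟩
  intro t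
  rcases Nat.lt_or_ge t N with h2 | h2
  · rcases Nat.eq_zero_or_pos t with h3 | h3
    · subst h3
      have : K w 0 = 0 := by simp [K]
      omega
    · obtain ⟨p, hp⟩ := exists_rep_K (w := w) h3
      have := hp.le_n
      omega
  · obtain ⟨j, hj, hj2⟩ := h.early t
    have h3 := hM j hj
    rw [hj2, h.2.1 t h2] at h3
    have : K w t ≤ M := by exact_mod_cast h3
    omega

theorem rep_of_le (h : Tail w N) {t k : ℕ} (ht : N ≤ t) (hk : (k : ℤ) ≤ w t) :
    ∃ p, Rep w t p k := by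
  have h1 := h.1
  rw [h.2.1 t ht] at hk
  have hk' : k ≤ K w t := by exact_mod_cast hk
  obtain ⟨p, hp⟩ := exists_rep_K (w := w) (n := t) (by omega)
  exact ⟨p, hp.mono hk'⟩

theorem le_of_rep (h : Tail w N) {t k p : ℕ} (ht : N ≤ t) (hr : Rep w t p k) : (k : ℤ) ≤ w t := by
  rw [h.2.1 t ht]
  exact_mod_cast hr.le_K

/-- The letter `2` is recurrent. -/
theorem two_rec (h : Tail w N) (T : ℕ) : ∃ t, T ≤ t ∧ w t = 2 := by
  by_contra hno
  push Not at hno
  obtain ⟨M, hM⟩ := h.bounded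
  refine no_eventual_cubes (w := w) (M := M) (t0 := T + N) hM ?_
  intro t ht
  have h1 := hno t (by omega)
  have h2 := h.2.2 t (by omega)
  exact h.rep_of_le (by omega) (by push_cast; omega)

/-- Three consecutive letters `2` are followed by a letter `≥ 3`. -/
theorem after_222 (h : Tail w N) {t : ℕ} (ht : N ≤ t) (h0 : w t = 2) (h1 : w (t + 1) = 2)
    (h2 : w (t + 2) = 2) : w (t + 3) = 3 := by
  have h3 : Rep w (t + 3) 1 3 := by
    refine ⟨one_pos, by omega, ?_⟩
    intro i hi hi2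
    have : i = t ∨ i = t + 1 := by omega
    rcases this with rfl | rfl
    · rw [h0, h1]
    · rw [h1, h2]
  have h4 := h.le_of_rep (by omega) h3
  have h5 := K_succ_le (w := w) (n := t + 2) (by omega)
  have h6 := h.2.1 (t + 2) (by omega)
  have h7 := h.2.1 (t + 3) (by omega)
  rw [h2] at h6
  have h8 : K w (t + 2) = 2 := by exact_mod_cast h6.symm
  have h9 : K w (t + 2 + 1) = K w (t + 3) := rfl
  rw [h7] at h4 ⊢
  have h10 : (K w (t + 3)) ≤ 3 := by omega
  have h11 : 3 ≤ K w (t + 3) := by exact_mod_cast h4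
  have : K w (t + 3) = 3 := by omega
  rw [this]
  rfl

/-- Ends of runs of `2` are recurrent. -/
theorem ends (h : Tail w N) (T : ℕ) : ∃ n, T ≤ n ∧ 1 ≤ n ∧ w (n - 1) = 2 ∧ 3 ≤ w n := by
  obtain ⟨t, ht, ht2⟩ := h.two_rec (T + N)
  have h1 := h.2.2 (t + 1) (by omega)
  have h2 := h.2.2 (t + 2) (by omega)
  by_cases h3 : 3 ≤ w (t + 1)
  · exact ⟨t + 1, by omega, by omega, by simpa using ht2, h3⟩
  by_cases h4 : 3 ≤ w (t + 2)
  · refine ⟨t + 2, by omega, by omega, ?_, h4⟩
    have : t + 2 - 1 = t + 1 := by omega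
    rw [this]
    omega
  · refine ⟨t + 3, by omega, by omega, ?_, ?_⟩
    · have : t + 3 - 1 = t + 2 := by omega
      rw [this]
      omega
    · rw [h.after_222 (by omega) ht2 (by omega) (by omega)]

/-- The block of letters `≥ 3` after a letter `2`. -/
theorem exists_len (h : Tail w N) : ∃ (len : ℕ → ℕ) (B : ℕ), ∀ n, N + 1 ≤ n → w (n - 1) = 2 →
    len n ≤ B ∧ (∀ i < len n, w (n + i) = A 3 i) ∧ w (n + len n) = 2 := by
  classical
  obtain ⟨M, hM⟩ := h.bounded
  obtain ⟨B, hB⟩ := lemmaV (M + 1) 3 le_rfl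
  have hblock : ∀ n L, N + 1 ≤ n → w (n - 1) = 2 → (∀ i < L, 3 ≤ w (n + i)) →
      ∀ i < L, w (n + i) = A 3 i := by
    intro n L hn hn1 hL
    refine block (w := w) (N := N) (c := 3) (by omega) ?_ hn ?_ ?_
    · intro t ht
      have h1 := h.2.1 t ht
      have h2 := h.2.2 t ht
      rw [h1] at h2 ⊢
      symm
      apply max_eq_right
      push_cast
      linarith
    · rw [hn1]; norm_num
    · intro i hi
      exact_mod_cast hL i hi
  have hex : ∀ n, N + 1 ≤ n → w (n - 1) = 2 → ∃ L, L ≤ B ∧ w (n + L) = 2 := by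
    intro n hn hn1
    by_contra hno
    push Not at hno
    have h1 : ∀ i < B + 1, 3 ≤ w (n + i) := by
      intro i hi
      have h2 := hno i (by omega)
      have h3 := h.2.2 (n + i) (by omega)
      omega
    have h2 := hblock n (B + 1) hn hn1 h1 B (by omega)
    have h3 := h.2.1 (n + B) (by omega)
    have h4 := hM (n + B)
    rw [← h2, h3] at hB
    have : 3 + (M + 1) ≤ K w (n + B) := by exact_mod_cast hB
    omega
  refine ⟨fun n => if hn : ∃ L, w (n + L) = 2 then Nat.find hn else 0, B, ?_⟩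
  intro n hn hn1
  obtain ⟨L, hL, hL2⟩ := hex n hn hn1
  have hn2 : ∃ L, w (n + L) = 2 := ⟨L, hL2⟩
  simp only [dif_pos hn2]
  refine ⟨(Nat.find_min' hn2 hL2).trans hL, ?_, Nat.find_spec hn2⟩
  refine hblock n (Nat.find hn2) hn hn1 ?_
  intro i hi
  have h1 := Nat.find_min hn2 hi
  have h2 := h.2.2 (n + i) (by omega)
  omega

/-- The key comparison of block lengths. -/
theorem len_lt (h : Tail w N) {len : ℕ → ℕ} {n p j : ℕ}
    (hlen : (∀ i < len n, w (n + i) = A 3 i) ∧ w (n + len n) = 2)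
    (hlen' : ∀ i < len (n - p), w (n - p + i) = A 3 i)
    (hn : N + 1 ≤ n) (hj : j ≤ len n) (hr : Rep w (n + j) p 3) (hpn : p ≤ n) :
    len (n - p) < len n := by
  by_contra hc
  have h1 : Rep w (n + len n) p 3 := by
    obtain ⟨hr0, hr1, hr2⟩ := hr
    refine ⟨hr0, by omega, ?_⟩
    intro i hi hi2
    by_cases hi3 : i + p < n + j
    · exact hr2 i (by omega) hi3
    · obtain ⟨k, hk⟩ : ∃ k, i + p = n + k := ⟨i + p - n, by omega⟩
      have hk2 : i = n - p + k := by omega
      rw [hk, hk2, hlen.1 k (by omega), hlen' k (by omega)]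
  have h2 := h.le_of_rep (by omega) h1
  rw [hlen.2] at h2
  norm_num at h2

/-- The factor `2223` is recurrent. -/
theorem rec_2223 (h : Tail w N) (T : ℕ) :
    ∃ t, T ≤ t ∧ w t = 2 ∧ w (t + 1) = 2 ∧ w (t + 2) = 2 ∧ w (t + 3) = 3 := by
  by_contra hno
  push Not at hno
  obtain ⟨N1, hN1, hT⟩ : ∃ N1, N ≤ N1 ∧ T ≤ N1 := ⟨N + T, by omega, by omega⟩
  have h222 : ∀ t, N1 ≤ t → w t = 2 → w (t + 1) = 2 → w (t + 2) = 2 → False := by
    intro t ht h0 h1 h2
    exact hno t (by omega) h0 h1 h2 (h.after_222 (by omega) h0 h1 h2)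
  obtain ⟨len, B, hlen⟩ := h.exists_len
  -- cubes at ends
  have hcube : ∀ n, N1 + 3 ≤ n → w (n - 1) = 2 → 3 ≤ w n →
      ∃ p, 2 ≤ p ∧ Rep w n p 3 := by
    intro n hn hn1 hn3
    obtain ⟨p, hp⟩ := h.rep_of_le (t := n) (k := 3) (by omega) (by exact_mod_cast hn3)
    refine ⟨p, ?_, hp⟩
    obtain ⟨hp0, hp1, hp2⟩ := hp
    by_contra hlt
    have hp1' : p = 1 := by omega
    subst hp1'
    have h1 := hp2 (n - 2) (by omega) (by omega)
    have h2 := hp2 (n - 3) (by omega) (by omega)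
    have e1 : n - 2 + 1 = n - 1 := by omega
    have e2 : n - 3 + 1 = n - 2 := by omega
    have e3 : n - 3 + 2 = n - 1 := by omega
    rw [e1, hn1] at h1
    rw [e2, h1] at h2
    exact h222 (n - 3) (by omega) h2 (by rw [e2]; exact h1) (by rw [e3]; exact hn1)
  -- type two ends are bounded
  have htype2 : ∃ T2, ∀ n, T2 ≤ n → ¬ (w (n - 1) = 2 ∧ w (n - 2) = 2 ∧ 3 ≤ w n) := by
    refine descent (len := len) (B := B) (T0 := 2 * N1 + 6) ?_ ?_
    · rintro n hn ⟨h1, _, _⟩
      exact (hlen n (by omega) h1).1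
    · rintro n hn ⟨h1, h2, h3⟩
      obtain ⟨p, hp, hrep⟩ := hcube n (by omega) h1 h3
      obtain ⟨hp0, hp1, hp2⟩ := hrep
      have e1 := hp2 (n - p - 1) (by omega) (by omega)
      have e2 := hp2 (n - p - 2) (by omega) (by omega)
      have e3 : n - p - 1 + p = n - 1 := by omega
      have e4 : n - p - 2 + p = n - 2 := by omega
      rw [e3, h1] at e1
      rw [e4, h2] at e2
      have e5 : 3 ≤ w (n - p) := by
        have h4 := h.2.2 (n - p) (by omega)
        by_contra hlt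
        have e6 : n - p - 2 + 1 = n - p - 1 := by omega
        have e7 : n - p - 2 + 2 = n - p := by omega
        exact h222 (n - p - 2) (by omega) e2 (by rw [e6]; exact e1) (by rw [e7]; omega)
      refine ⟨n - p, ⟨e1, e2, e5⟩, ?_, by omega⟩
      exact h.len_lt (j := 0) (hlen n (by omega) h1).2 (hlen (n - p) (by omega) e1).2.1
        (by omega) (by omega) ⟨hp0, hp1, hp2⟩ (by omega)
  obtain ⟨T2, hT2⟩ := htype2
  -- all ends are bounded
  have hall : ∃ T3, ∀ n, T3 ≤ n → ¬ (w (n - 1) = 2 ∧ 3 ≤ w n) := by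
    refine descent (len := len) (B := B) (T0 := 2 * (N1 + T2) + 6) ?_ ?_
    · rintro n hn ⟨h1, _⟩
      exact (hlen n (by omega) h1).1
    · rintro n hn ⟨h1, h3⟩
      obtain ⟨p, hp, hrep⟩ := hcube n (by omega) h1 h3
      obtain ⟨hp0, hp1, hp2⟩ := hrep
      have e1 := hp2 (n - p - 1) (by omega) (by omega)
      have e3 : n - p - 1 + p = n - 1 := by omega
      rw [e3, h1] at e1
      have e5 : 3 ≤ w (n - p) := by
        have h4 := h.2.2 (n - p) (by omega)
        have h5 := h.2.2 (n - p + 1) (by omega)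
        by_contra hlt
        have h6 : w (n - p) = 2 := by omega
        have e6 : n - p - 1 + 1 = n - p := by omega
        have e7 : n - p - 1 + 2 = n - p + 1 := by omega
        have h7 : 3 ≤ w (n - p + 1) := by
          by_contra hlt2
          exact h222 (n - p - 1) (by omega) e1 (by rw [e6]; exact h6) (by rw [e7]; omega)
        refine hT2 (n - p + 1) (by omega) ⟨?_, ?_, h7⟩
        · rw [Nat.add_sub_cancel]; exact h6
        · have e8 : n - p + 1 - 2 = n - p - 1 := by omega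
          rw [e8]; exact e1
      refine ⟨n - p, ⟨e1, e5⟩, ?_, by omega⟩
      exact h.len_lt (j := 0) (hlen n (by omega) h1).2 (hlen (n - p) (by omega) e1).2.1
        (by omega) (by omega) ⟨hp0, hp1, hp2⟩ (by omega)
  obtain ⟨T3, hT3⟩ := hall
  obtain ⟨n, hn, _, hn2, hn3⟩ := h.ends T3
  exact hT3 n hn ⟨hn2, hn3⟩

/-- The factor `22232` is recurrent. -/
theorem rec_22232 (h : Tail w N) (T : ℕ) :
    ∃ t, T ≤ t ∧ w t = 2 ∧ w (t + 1) = 2 ∧ w (t + 2) = 2 ∧ w (t + 3) = 3 ∧ w (t + 4) = 2 := by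
  by_contra hno
  push Not at hno
  obtain ⟨N1, hN1, hT⟩ : ∃ N1, N ≤ N1 ∧ T ≤ N1 := ⟨N + T, by omega, by omega⟩
  obtain ⟨len, B, hlen⟩ := h.exists_len
  have hall : ∃ T3, ∀ n, T3 ≤ n → ¬ (w (n - 1) = 2 ∧ w (n - 2) = 2 ∧ w (n - 3) = 2 ∧ w n = 3) := by
    refine descent (len := len) (B := B) (T0 := 2 * N1 + 10) ?_ ?_
    · rintro n hn ⟨h1, _⟩
      exact (hlen n (by omega) h1).1
    · rintro n hn ⟨h1, h2, h3, h4⟩
      have h5 : 3 ≤ w (n + 1) := by
        have h6 := h.2.2 (n + 1) (by omega)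
        by_contra hlt
        have e1 : n - 3 + 1 = n - 2 := by omega
        have e2 : n - 3 + 2 = n - 1 := by omega
        have e3 : n - 3 + 3 = n := by omega
        have e4 : n - 3 + 4 = n + 1 := by omega
        refine hno (n - 3) (by omega) h3 (by rw [e1]; exact h2) (by rw [e2]; exact h1)
          (by rw [e3]; exact h4) (by rw [e4]; omega)
      obtain ⟨p, hp⟩ := h.rep_of_le (t := n + 1) (k := 3) (by omega) (by exact_mod_cast h5)
      obtain ⟨hp0, hp1, hp2⟩ := hp
      have hp4 : 4 ≤ p := by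
        by_contra hlt
        have h6 := hp2 (n - p) (by omega) (by omega)
        have h7 : n - p + p = n := by omega
        rw [h7, h4] at h6
        have h8 : p = 1 ∨ p = 2 ∨ p = 3 := by omega
        rcases h8 with rfl | rfl | rfl
        · rw [h1] at h6; norm_num at h6
        · rw [h2] at h6; norm_num at h6
        · rw [h3] at h6; norm_num at h6
      have e1 := hp2 (n - p - 1) (by omega) (by omega)
      have e2 := hp2 (n - p - 2) (by omega) (by omega)
      have e3 := hp2 (n - p - 3) (by omega) (by omega)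
      have e4 := hp2 (n - p) (by omega) (by omega)
      have f1 : n - p - 1 + p = n - 1 := by omega
      have f2 : n - p - 2 + p = n - 2 := by omega
      have f3 : n - p - 3 + p = n - 3 := by omega
      have f4 : n - p + p = n := by omega
      rw [f1, h1] at e1
      rw [f2, h2] at e2
      rw [f3, h3] at e3
      rw [f4, h4] at e4
      have hl := hlen n (by omega) h1
      have hl1 : 1 ≤ len n := by
        by_contra hlt
        have h8 : len n = 0 := by omega
        have h9 := hl.2.2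
        rw [h8, Nat.add_zero, h4] at h9
        norm_num at h9
      refine ⟨n - p, ⟨e1, e2, e3, e4⟩, ?_, by omega⟩
      exact h.len_lt (j := 1) hl.2 (hlen (n - p) (by omega) e1).2.1
        (by omega) hl1 ⟨hp0, hp1, hp2⟩ (by omega)
  obtain ⟨T3, hT3⟩ := hall
  obtain ⟨t, ht, h0, h1, h2, h3⟩ := h.rec_2223 T3
  refine hT3 (t + 3) (by omega) ⟨?_, ?_, ?_, h3⟩
  · exact h2
  · exact h1
  · simpa using h0

/-- The starting word contains `2223`. -/
theorem start_2223 (h : Tail w N) :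
    ∃ t, t + 3 < N ∧ w t = 2 ∧ w (t + 1) = 2 ∧ w (t + 2) = 2 ∧ w (t + 3) = 3 := by
  classical
  have hex : ∃ t, w t = 2 ∧ w (t + 1) = 2 ∧ w (t + 2) = 2 ∧ w (t + 3) = 3 := by
    obtain ⟨t, _, ht⟩ := h.rec_2223 0
    exact ⟨t, ht⟩
  obtain ⟨t, ht⟩ : ∃ t, t = Nat.find hex := ⟨_, rfl⟩
  have hspec : w t = 2 ∧ w (t + 1) = 2 ∧ w (t + 2) = 2 ∧ w (t + 3) = 3 := by
    rw [ht]; exact Nat.find_spec hex
  have hmin : ∀ u, u < t → ¬ (w u = 2 ∧ w (u + 1) = 2 ∧ w (u + 2) = 2 ∧ w (u + 3) = 3) :=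
    fun u hu => Nat.find_min hex (by omega)
  refine ⟨t, ?_, hspec⟩
  obtain ⟨h0, h1, h2, h3⟩ := hspec
  by_contra hlt
  obtain ⟨p, hp0, hp1, hp2⟩ := h.rep_of_le (t := t + 4) (k := 2) (by omega)
    (by exact_mod_cast h.2.2 (t + 4) (by omega))
  have hp4 : 4 ≤ p := by
    by_contra hlt
    have h6 := hp2 (t + 3 - p) (by omega) (by omega)
    have h7 : t + 3 - p + p = t + 3 := by omega
    rw [h7, h3] at h6
    have h8 : p = 1 ∨ p = 2 ∨ p = 3 := by omega
    rcases h8 with rfl | rfl | rfl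
    · have e : t + 3 - 1 = t + 2 := by omega
      rw [e, h2] at h6; norm_num at h6
    · have e : t + 3 - 2 = t + 1 := by omega
      rw [e, h1] at h6; norm_num at h6
    · have e : t + 3 - 3 = t := by omega
      rw [e, h0] at h6; norm_num at h6
  have e0 := hp2 (t - p) (by omega) (by omega)
  have e1 := hp2 (t - p + 1) (by omega) (by omega)
  have e2 := hp2 (t - p + 2) (by omega) (by omega)
  have e3 := hp2 (t - p + 3) (by omega) (by omega)
  have f0 : t - p + p = t := by omega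
  have f1 : t - p + 1 + p = t + 1 := by omega
  have f2 : t - p + 2 + p = t + 2 := by omega
  have f3 : t - p + 3 + p = t + 3 := by omega
  rw [f0, h0] at e0
  rw [f1, h1] at e1
  rw [f2, h2] at e2
  rw [f3, h3] at e3
  exact hmin (t - p) (by omega) ⟨e0, e1, e2, e3⟩

/-- The starting word contains `32`. -/
theorem start_32 (h : Tail w N) : ∃ t, t + 1 < N ∧ w t = 3 ∧ w (t + 1) = 2 := by
  classical
  have hex : ∃ t, w t = 3 ∧ w (t + 1) = 2 := by
    obtain ⟨t, _, _, _, _, h3, h4⟩ := h.rec_22232 0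
    exact ⟨t + 3, h3, h4⟩
  obtain ⟨t, ht⟩ : ∃ t, t = Nat.find hex := ⟨_, rfl⟩
  have hspec : w t = 3 ∧ w (t + 1) = 2 := by
    rw [ht]; exact Nat.find_spec hex
  have hmin : ∀ u, u < t → ¬ (w u = 3 ∧ w (u + 1) = 2) :=
    fun u hu => Nat.find_min hex (by omega)
  refine ⟨t, ?_, hspec⟩
  obtain ⟨h0, h1⟩ := hspec
  by_contra hlt
  obtain ⟨p, hp0, hp1, hp2⟩ := h.rep_of_le (t := t + 2) (k := 2) (by omega)
    (by exact_mod_cast h.2.2 (t + 2) (by omega))
  have hp4 : 2 ≤ p := by
    by_contra hlt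
    have h8 : p = 1 := by omega
    subst h8
    have h6 := hp2 t (by omega) (by omega)
    rw [h0, h1] at h6
    norm_num at h6
  have e0 := hp2 (t - p) (by omega) (by omega)
  have e1 := hp2 (t - p + 1) (by omega) (by omega)
  have f0 : t - p + p = t := by omega
  have f1 : t - p + 1 + p = t + 1 := by omega
  rw [f0, h0] at e0
  rw [f1, h1] at e1
  exact hmin (t - p) (by omega) ⟨e0, e1⟩

end Tail

end Pool.Agent.Helper16.Curl
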